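import Mathlib

namespace Pool.Agent.Results.MP_2e17cf_an.SecondKKT

open Matrix Filter Topology Set

/-- the objective `(1/2) xᵀ Q x + cᵀ x` -/
noncomputable def obj {n : ℕ} (Q : Matrix (Fin n) (Fin n) ℝ) (c x : Fin n → ℝ) : ℝ :=
  (1 / 2) * (x ⬝ᵥ Q *ᵥ x) + c ⬝ᵥ x

/-- the constraint function `xᵀ A x + 2 bᵀ x + d` -/
def con {n : ℕ} (A : Matrix (Fin n) (Fin n) ℝ) (b : Fin n → ℝ) (d : ℝ) (x : Fin n → ℝ) : ℝ :=
  x ⬝ᵥ A *ᵥ x + 2 * (b ⬝ᵥ x) + d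

def F : Set (Fin 2 → ℝ) :=
  {x | con !![1, 0; 0, 1] ![0, 0] (-1) x ≤ 0 ∧ con !![1, 0; 0, 24] ![7, 0] (-15) x ≤ 0}

lemma obj_eq (x : Fin 2 → ℝ) :
    obj !![-8, 0; 0, -12] ![3, 0] x = -4 * x 0 ^ 2 - 6 * x 1 ^ 2 + 3 * x 0 := by
  simp [obj, dotProduct, mulVec, Fin.sum_univ_two]; ring

lemma mem_F (x : Fin 2 → ℝ) :
    x ∈ F ↔ x 0 ^ 2 + x 1 ^ 2 ≤ 1 ∧ x 0 ^ 2 + 24 * x 1 ^ 2 + 14 * x 0 ≤ 15 := by
  simp only [F, con, dotProduct, mulVec, Fin.sum_univ_two, mem_ofPred_eq, of_apply, cons_val',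
    cons_val_zero, cons_val_one, cons_val_fin_one]
  constructor <;> rintro ⟨h1, h2⟩ <;> constructor <;> nlinarith

lemma descent (x : Fin 2 → ℝ) (hx : x ∈ F)
    (hl : IsLocalMinOn (obj !![-8, 0; 0, -12] ![3, 0]) F x)
    (hlow : obj !![-8, 0; 0, -12] ![3, 0] x < -139 / 20) :
    obj !![-8, 0; 0, -12] ![3, 0] x ≤ -57 / 8 := by
  rw [mem_F] at hx
  rw [obj_eq] at hlow ⊢
  obtain ⟨h1, -⟩ := hx
  have a1 : x 0 ≤ -9 / 20 := by nlinarith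
  have a0 : -1 ≤ x 0 := by nlinarith
  obtain ⟨s, hs, hs'⟩ : ∃ s : ℝ, s ^ 2 = 1 ∧ s * √(x 1 ^ 2) = x 1 := by
    rw [Real.sqrt_sq_eq_abs]
    rcases le_total 0 (x 1) with h | h
    · exact ⟨1, by norm_num, by rw [abs_of_nonneg h, one_mul]⟩
    · exact ⟨-1, by norm_num, by rw [abs_of_nonpos h]; ring⟩
  let u : ℝ → ℝ := fun t => x 0 + t * (-3 / 4 - x 0)
  let γ : ℝ → Fin 2 → ℝ := fun t => ![u t, s * √((1 - t) * x 1 ^ 2 + t * (1 - u t ^ 2)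
    + (1 - t) * (x 0 ^ 2 - u t ^ 2))]
  have hu : ∀ t ∈ Ioo (0 : ℝ) 1, -1 ≤ u t ∧ u t ≤ -9 / 20 := fun t ht => by
    simp only [u]; constructor <;> nlinarith [ht.1, ht.2]
  have hγ0 : γ 0 = x := by
    funext i; fin_cases i
    · simp [γ, u]
    · simpa [γ, u] using hs'
  have hc : Continuous γ := by
    refine continuous_pi fun i => ?_
    fin_cases i <;> simp only [γ, u] <;> simp <;> fun_prop
  have hpos : ∀ᶠ t in 𝓝[>] (0 : ℝ), 0 ≤ (1 - t) * x 1 ^ 2 + t * (1 - u t ^ 2)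
      + (1 - t) * (x 0 ^ 2 - u t ^ 2) := by
    rcases le_total (x 0) (-3 / 4) with h | h
    · filter_upwards [Ioo_mem_nhdsGT zero_lt_one] with t ht
      have := hu t ht
      have e : x 0 ≤ u t := by simp only [u]; nlinarith [ht.1]
      have : 0 ≤ 1 - t := by linarith [ht.2]
      have : 0 ≤ x 0 ^ 2 - u t ^ 2 := by nlinarith
      have : 0 ≤ 1 - u t ^ 2 := by nlinarith
      have := ht.1
      positivity
    · have hcont : Continuous fun t => (1 - t) * x 1 ^ 2 + t * (1 - u t ^ 2)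
          + (1 - t) * (x 0 ^ 2 - u t ^ 2) := by simp only [u]; fun_prop
      refine ((hcont.tendsto 0).mono_left nhdsWithin_le_nhds).eventually (le_mem_nhds ?_)
      simp only [u]
      nlinarith
  have hsq : ∀ᶠ t in 𝓝[>] (0 : ℝ), t ∈ Ioo (0 : ℝ) 1 ∧
      γ t 1 ^ 2 = (1 - t) * (x 0 ^ 2 + x 1 ^ 2) + t - u t ^ 2 := by
    filter_upwards [hpos, Ioo_mem_nhdsGT zero_lt_one] with t h ht
    refine ⟨ht, ?_⟩
    simp only [γ, cons_val_one, cons_val_zero, mul_pow, hs, Real.sq_sqrt h]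
    ring
  have ht : Tendsto γ (𝓝[>] 0) (𝓝[F] x) := by
    refine tendsto_nhdsWithin_iff.2 ⟨hγ0 ▸ (hc.tendsto 0).mono_left nhdsWithin_le_nhds, ?_⟩
    filter_upwards [hsq] with t ⟨ht, h⟩
    have := hu t ht
    have e : γ t 0 = u t := rfl
    rw [mem_F, e, h]
    constructor <;> nlinarith [ht.1, ht.2]
  obtain ⟨t, h2, ht', h3⟩ := ((ht.eventually hl).and hsq).exists
  have e : γ t 0 = u t := rfl
  rw [obj_eq, obj_eq, e, h3] at h2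
  simp only [u] at h2
  have k1 : 0 ≤ t * (1 - (x 0 ^ 2 + x 1 ^ 2)) := mul_nonneg ht'.1.le (by linarith)
  have k2 : 0 ≤ t * (2 - t) * (x 0 + 3 / 4) ^ 2 :=
    mul_nonneg (mul_nonneg ht'.1.le (by linarith [ht'.2])) (sq_nonneg _)
  have k3 : t * (1 - (x 0 ^ 2 + x 1 ^ 2)) = 0 := by nlinarith
  have k4 : t * (2 - t) * (x 0 + 3 / 4) ^ 2 = 0 := by nlinarith
  have k5 := (mul_eq_zero.1 k3).resolve_left ht'.1.ne'
  have k6 := (mul_eq_zero.1 k4).resolve_left (mul_pos ht'.1 (by linarith [ht'.2])).ne'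
  nlinarith

theorem result : ∃ (n : ℕ) (Q A₁ A₂ : Matrix (Fin n) (Fin n) ℝ) (c b₁ b₂ : Fin n → ℝ) (d₁ d₂ : ℝ)
    (F : Set (Fin n → ℝ)), Q.IsSymm ∧ A₁.PosDef ∧ A₂.PosDef ∧
      F = {x | con A₁ b₁ d₁ x ≤ 0 ∧ con A₂ b₂ d₂ x ≤ 0} ∧
      (∃ y ∈ F, IsLocalMinOn (obj Q c) F y ∧ ¬ IsMinOn (obj Q c) F y) ∧
      ∃ x ∈ F, (∃ μ₁ μ₂ : ℝ, 0 ≤ μ₁ ∧ 0 ≤ μ₂ ∧
          Q *ᵥ x + c + μ₁ • (2 : ℝ) • (A₁ *ᵥ x + b₁) + μ₂ • (2 : ℝ) • (A₂ *ᵥ x + b₂) = 0 ∧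
          μ₁ * con A₁ b₁ d₁ x = 0 ∧ μ₂ * con A₂ b₂ d₂ x = 0) ∧ ¬ IsMinOn (obj Q c) F x ∧
        ∃ δ : ℝ, 0 < δ ∧ ∀ y ∈ F, IsLocalMinOn (obj Q c) F y → ¬ IsMinOn (obj Q c) F y →
          obj Q c x + δ ≤ obj Q c y := by
  have hz : (![-4 / 5, 3 / 5] : Fin 2 → ℝ) ∈ F := by rw [mem_F]; norm_num
  refine ⟨2, !![-8, 0; 0, -12], !![1, 0; 0, 1], !![1, 0; 0, 24], ![3, 0], ![0, 0], ![7, 0], -1, -15,
    F, ?_, ?_, ?_, rfl, ⟨![1, 0], by rw [mem_F]; norm_num, ?_, fun h => ?_⟩, ![-1, 0],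
    by rw [mem_F]; norm_num, ⟨11 / 2, 0, by norm_num, le_rfl, ?_, ?_, by simp⟩, fun h => ?_,
    1 / 20, by norm_num, fun y hy h1 h2 => ?_⟩
  · ext i j; fin_cases i <;> fin_cases j <;> simp
  · rw [← one_fin_two]; exact PosDef.one
  · have : (!![1, 0; 0, 24] : Matrix (Fin 2) (Fin 2) ℝ) = diagonal ![1, 24] := by
      ext i j; fin_cases i <;> fin_cases j <;> simp
    rw [this, posDef_diagonal_iff]
    intro i; fin_cases i <;> simp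
  · have : ∀ᶠ x in 𝓝 (![1, 0] : Fin 2 → ℝ), 3 / 4 < x 0 :=
      (continuous_apply 0).continuousAt.eventually (lt_mem_nhds (by norm_num))
    filter_upwards [self_mem_nhdsWithin, mem_nhdsWithin_of_mem_nhds this] with x hx h
    rw [mem_F] at hx
    rw [obj_eq, obj_eq]
    have : x 0 ≤ 1 := by nlinarith [hx.1]
    norm_num
    nlinarith [hx.2]
  · have := h hz
    simp only [mem_ofPred_eq, obj_eq] at this
    norm_num at this
  · ext i; fin_cases i <;> simp [vecHead, vecTail] <;> norm_num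
  · simp [con, mulVec, dotProduct, Fin.sum_univ_two]
  · have := h hz
    simp only [mem_ofPred_eq, obj_eq] at this
    norm_num at this
  · by_contra hc
    refine h2 fun z hz => ?_
    have := descent y hy h1 (by rw [obj_eq ![-1, 0]] at hc; norm_num at hc; linarith)
    refine this.trans ?_
    rw [obj_eq]
    nlinarith [((mem_F z).1 hz).1, sq_nonneg (z 0 + 3 / 4)]

end Pool.Agent.Results.MP_2e17cf_an.SecondKKT
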